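import Mathlib
import Pool.Agent.MP_16ca68_co.D.Main

set_option autoImplicit false

namespace Pool.Agent.Results.MP_16ca68_co.DirectedTriangles

/-- For the 3-graph of directed triangles of a digraph the density jumps from `2/9` to
`(189 + 15√5)/961`, and no larger number works, already for tournaments. -/
theorem result :
    (∀ ε : ℝ, 0 < ε → ∀ t : ℕ, 3 ≤ t → ∃ n₀ : ℕ, ∀ n : ℕ, n₀ ≤ n →
      ∀ (r : Fin n → Fin n → Prop) (H : Finset (Finset (Fin n))),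
        (∀ e, e ∈ H ↔ e.card = 3 ∧ ∃ a b c, e = {a, b, c} ∧ r a b ∧ r b c ∧ r c a) →
        ((2 : ℝ) / 9 + ε) * (n.choose 3 : ℝ) ≤ (H.card : ℝ) →
        ∃ S : Finset (Fin n), S.card = t ∧
          (189 + 15 * √5) / 961 * (t.choose 3 : ℝ) ≤ ((H.filter (fun e => e ⊆ S)).card : ℝ)) ∧
    ∀ β : ℝ, (189 + 15 * √5) / 961 < β →
      ∃ ε : ℝ, 0 < ε ∧ ∃ t : ℕ, 3 ≤ t ∧ ∀ n₀ : ℕ, ∃ n : ℕ, n₀ ≤ n ∧
        ∃ (r : Fin n → Fin n → Prop) (H : Finset (Finset (Fin n))),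
          (∀ a, ¬ r a a) ∧ (∀ a b, a ≠ b → (r a b ↔ ¬ r b a)) ∧
          (∀ e, e ∈ H ↔ e.card = 3 ∧ ∃ a b c, e = {a, b, c} ∧ r a b ∧ r b c ∧ r c a) ∧
          ((2 : ℝ) / 9 + ε) * (n.choose 3 : ℝ) ≤ (H.card : ℝ) ∧
          ∀ S : Finset (Fin n), S.card = t →
            ((H.filter (fun e => e ⊆ S)).card : ℝ) < β * (t.choose 3 : ℝ) :=
  ⟨Pool.Agent.MP_16ca68_co.D.jump, Pool.Agent.MP_16ca68_co.D.sharp⟩

end Pool.Agent.Results.MP_16ca68_co.DirectedTriangles
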