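import Mathlib
import Pool.Agent.MP_16ca68_co.A.Main

set_option autoImplicit false

namespace Pool.Agent.Results.MP_16ca68_co.NewJumpInterval

/-- Every number in `[0.2749, 5/18)` is a jump for 3-graphs, up to the density `5/18`. -/
theorem result (α : ℝ) (h₁ : 2749 / 10000 ≤ α) (h₂ : α < 5 / 18) :
    ∃ c : ℝ, 0 < c ∧ α + c = 5 / 18 ∧
      ∀ ε : ℝ, 0 < ε →
        ∀ t : ℕ, 3 ≤ t →
          ∃ n₀ : ℕ, ∀ n : ℕ, n₀ ≤ n →
            ∀ H : Finset (Finset (Fin n)),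
              (∀ e ∈ H, e.card = 3) →
              (α + ε) * (n.choose 3 : ℝ) ≤ (H.card : ℝ) →
              ∃ S : Finset (Fin n), S.card = t ∧
                (α + c) * (t.choose 3 : ℝ) ≤ ((H.filter (fun e => e ⊆ S)).card : ℝ) := by
  refine ⟨5 / 18 - α, by linarith, by ring, fun ε hε t ht => ?_⟩
  obtain ⟨n₀, h⟩ := Pool.Agent.MP_16ca68_co.A.dense ε hε t ht
  refine ⟨n₀, fun n hn H hH hd => ?_⟩
  obtain ⟨S, hS, hS'⟩ := h n hn H hH (le_trans (by
    refine mul_le_mul_of_nonneg_right ?_ (Nat.cast_nonneg _)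
    norm_num at h₁ ⊢
    linarith) hd)
  refine ⟨S, hS, le_trans (le_of_eq ?_) hS'⟩
  push_cast
  ring

end Pool.Agent.Results.MP_16ca68_co.NewJumpInterval
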