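import Mathlib
import Pool.Agent.MP_16ca68_co.h95.Count

set_option autoImplicit false

namespace Pool.Agent.Results.MP_16ca68_co.NonJump

/-- The number 7/18 is not a jump for 3-graphs. -/
theorem result :
    ¬ (∃ c : ℝ, 0 < c ∧
      ∀ ε : ℝ, 0 < ε →
        ∀ t : ℕ, 3 ≤ t →
          ∃ n₀ : ℕ, ∀ n : ℕ, n₀ ≤ n →
            ∀ H : Finset (Finset (Fin n)),
              (∀ e ∈ H, e.card = 3) →
              ((7 : ℝ) / 18 + ε) * (n.choose 3 : ℝ) ≤ (H.card : ℝ) →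
              ∃ S : Finset (Fin n), S.card = t ∧
                ((7 : ℝ) / 18 + c) * (t.choose 3 : ℝ) ≤
                  ((H.filter (fun e => e ⊆ S)).card : ℝ)) := by
  rintro ⟨c, hc, hj⟩
  obtain ⟨t0, ht0⟩ := exists_nat_gt (3 * (7 / 18 + c) / c)
  obtain ⟨ε, hε, hcon⟩ := Pool.Agent.NJ.construction (t0 + 3)
  obtain ⟨n₀, hn₀⟩ := hj ε hε (t0 + 3) (by omega)
  obtain ⟨n, hn, H, h3, hH, hS⟩ := hcon n₀
  obtain ⟨S, hcard, hle⟩ := hn₀ n hn H h3 hH
  have h1 := hle.trans (hS S hcard)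
  rw [Pool.Agent.NJ.choose_three] at h1
  rw [div_lt_iff₀ hc] at ht0
  have h0 : (0 : ℝ) ≤ t0 := Nat.cast_nonneg _
  generalize hT : ((t0 + 3 : ℕ) : ℝ) = T at h1
  have hT' : T = t0 + 3 := by rw [← hT]; push_cast; rfl
  have h2 : 3 * (7 / 18 + c) < T * c := by nlinarith
  have h4 : 0 < T * T := by nlinarith
  nlinarith [mul_lt_mul_of_pos_left h2 h4]

end Pool.Agent.Results.MP_16ca68_co.NonJump
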